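import Mathlib

/-!
# Filtered Varchenko-Gelfand algebras in characteristic two

Over every integral domain of characteristic two there are two real central arrangements of six
hyperplanes in four-space with isomorphic filtered Varchenko-Gelfand algebras and non-isomorphic
oriented matroids.
-/

set_option autoImplicit false

namespace Pool.Agent.Results.MP_157dc7_co.CharacteristicTwo

open Matrix

universe u

section Defs

variable {l n : ℕ}

/-- The rows of `A` are the linear forms of a real central arrangement of `n` different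
hyperplanes in `ℝ ^ l`. -/
def IsArrangement (A : Matrix (Fin n) (Fin l) ℝ) : Prop :=
  (∀ i, A i ≠ 0) ∧ ∀ i j, i ≠ j → ∀ c : ℝ, A i ≠ c • A j

/-- The complement of the hyperplanes. -/
def compl (A : Matrix (Fin n) (Fin l) ℝ) : Set (Fin l → ℝ) := {x | ∀ i, (A *ᵥ x) i ≠ 0}

/-- The chambers: the connected components of the complement. -/
abbrev Chamber (A : Matrix (Fin n) (Fin l) ℝ) : Type := ConnectedComponents (compl A)

variable (R : Type u) [CommRing R]

/-- A function `f` on the chambers is the Heaviside function of the `i`-th form: it is `1` on the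
chambers where the form is positive and `0` on the others. -/
def IsHeaviside (A : Matrix (Fin n) (Fin l) ℝ) (i : Fin n) (f : Chamber A → R) : Prop :=
  ∀ x : compl A, (0 < (A *ᵥ x.1) i → f (x : Chamber A) = 1) ∧
    ((A *ᵥ x.1) i < 0 → f (x : Chamber A) = 0)

/-- The degree filtration: the span of the products of at most `k` Heaviside functions. -/
def filt (A : Matrix (Fin n) (Fin l) ℝ) (k : ℕ) : Submodule R (Chamber A → R) :=
  Submodule.span R {f | ∃ L : List (Chamber A → R), L.length ≤ k ∧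
    (∀ g ∈ L, ∃ i, IsHeaviside R A i g) ∧ f = L.prod}

/-- The Varchenko-Gelfand algebras over `R` are isomorphic as filtered `R`-algebras. -/
def FilteredIso {l' n' : ℕ} (A : Matrix (Fin n) (Fin l) ℝ) (B : Matrix (Fin n') (Fin l') ℝ) :
    Prop :=
  ∃ φ : (Chamber A → R) ≃ₐ[R] (Chamber B → R),
    ∀ k, (filt R A k).map φ.toLinearMap = filt R B k

/-- The covectors of the oriented matroid. -/
def covectors (A : Matrix (Fin n) (Fin l) ℝ) : Set (Fin n → SignType) :=
  {v | ∃ x, v = fun i => SignType.sign ((A *ᵥ x) i)}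

/-- The oriented matroids are isomorphic: they agree after a permutation of the ground set and a
reorientation. -/
def OMIso {l' n' : ℕ} (A : Matrix (Fin n) (Fin l) ℝ) (B : Matrix (Fin n') (Fin l') ℝ) : Prop :=
  ∃ (σ : Fin n ≃ Fin n') (ε : Fin n → SignType), (∀ i, ε i ≠ 0) ∧
    ∀ v : Fin n' → SignType, v ∈ covectors B ↔ (fun i => ε i * v (σ i)) ∈ covectors A

end Defs

section Lemmas

variable {l n : ℕ} (R : Type u) [CommRing R]

theorem clopen_pos (A : Matrix (Fin n) (Fin l) ℝ) (i : Fin n) :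
    IsClopen {x : compl A | 0 < (A *ᵥ x.1) i} := by
  have hc : Continuous fun x : compl A => (A *ᵥ x.1) i := by
    have h1 : Continuous fun x : Fin l → ℝ => (A *ᵥ x) i := by
      show Continuous fun x : Fin l → ℝ => ∑ j, A i j * x j
      fun_prop
    exact h1.comp continuous_subtype_val
  refine ⟨?_, isOpen_lt continuous_const hc⟩
  have : {x : compl A | 0 < (A *ᵥ x.1) i} = {x : compl A | 0 ≤ (A *ᵥ x.1) i} := by
    ext x
    simp only [Set.mem_ofPred_eq]
    exact ⟨fun h => le_of_lt h, fun h => lt_of_le_of_ne h (Ne.symm (x.2 i))⟩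
  rw [this]
  exact isClosed_le continuous_const hc

/-- The sign of the `i`-th form on the chambers. -/
noncomputable def sg (A : Matrix (Fin n) (Fin l) ℝ) (i : Fin n) : Chamber A → Bool :=
  Continuous.connectedComponentsLift (f := fun x : compl A => decide (0 < (A *ᵥ x.1) i)) (by
    rw [continuous_bool_rng true]
    have h := clopen_pos A i
    have e : ((fun x : compl A => decide (0 < (A *ᵥ x.1) i)) ⁻¹' {true}) =
        {x : compl A | 0 < (A *ᵥ x.1) i} := by
      ext x
      simp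
    rw [e]
    exact h)

theorem sg_coe (A : Matrix (Fin n) (Fin l) ℝ) (i : Fin n) (x : compl A) :
    sg A i (x : Chamber A) = decide (0 < (A *ᵥ x.1) i) :=
  Continuous.connectedComponentsLift_apply_coe _ _

/-- The Heaviside function of the `i`-th form. -/
noncomputable def hv (A : Matrix (Fin n) (Fin l) ℝ) (i : Fin n) : Chamber A → R :=
  fun c => if sg A i c then 1 else 0

theorem hv_pos (A : Matrix (Fin n) (Fin l) ℝ) (i : Fin n) (x : compl A)
    (h : 0 < (A *ᵥ x.1) i) : hv R A i (x : Chamber A) = 1 := by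
  simp [hv, sg_coe, h]

theorem hv_neg (A : Matrix (Fin n) (Fin l) ℝ) (i : Fin n) (x : compl A)
    (h : (A *ᵥ x.1) i < 0) : hv R A i (x : Chamber A) = 0 := by
  simp [hv, sg_coe, not_lt.mpr h.le]

theorem isHeaviside_hv (A : Matrix (Fin n) (Fin l) ℝ) (i : Fin n) :
    IsHeaviside R A i (hv R A i) := fun x => ⟨hv_pos R A i x, hv_neg R A i x⟩

variable {R}

theorem mem_one_of_heaviside {A : Matrix (Fin n) (Fin l) ℝ} {i : Fin n} {f : Chamber A → R}
    (hf : IsHeaviside R A i f) : f ∈ filt R A 1 := by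
  apply Submodule.subset_span
  refine ⟨[f], le_rfl, ?_, by simp⟩
  intro g hg
  rw [List.mem_singleton] at hg
  exact ⟨i, hg ▸ hf⟩

theorem mem_one_of_triple [CharP R 2] {A : Matrix (Fin n) (Fin l) ℝ} (i j k : Fin n)
    {f : Chamber A → R}
    (hf : ∀ x : compl A, (0 < (A *ᵥ x.1) i * (A *ᵥ x.1) j * (A *ᵥ x.1) k →
      f (x : Chamber A) = 1) ∧
      ((A *ᵥ x.1) i * (A *ᵥ x.1) j * (A *ᵥ x.1) k < 0 → f (x : Chamber A) = 0)) :
    f ∈ filt R A 1 := by
  have h2 : (1 : R) + 1 = 0 := CharTwo.add_self_eq_zero 1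
  have e : f = hv R A i + hv R A j + hv R A k := by
    funext c
    obtain ⟨x, rfl⟩ := ConnectedComponents.surjective_coe c
    simp only [Pi.add_apply]
    rcases lt_or_gt_of_ne (x.2 i) with hi | hi <;> rcases lt_or_gt_of_ne (x.2 j) with hj | hj <;>
      rcases lt_or_gt_of_ne (x.2 k) with hk | hk
    · rw [hv_neg R A i x hi, hv_neg R A j x hj, hv_neg R A k x hk,
        (hf x).2 (mul_neg_of_pos_of_neg (mul_pos_of_neg_of_neg hi hj) hk)]
      simp
    · rw [hv_neg R A i x hi, hv_neg R A j x hj, hv_pos R A k x hk,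
        (hf x).1 (mul_pos (mul_pos_of_neg_of_neg hi hj) hk)]
      simp
    · rw [hv_neg R A i x hi, hv_pos R A j x hj, hv_neg R A k x hk,
        (hf x).1 (mul_pos_of_neg_of_neg (mul_neg_of_neg_of_pos hi hj) hk)]
      simp
    · rw [hv_neg R A i x hi, hv_pos R A j x hj, hv_pos R A k x hk,
        (hf x).2 (mul_neg_of_neg_of_pos (mul_neg_of_neg_of_pos hi hj) hk)]
      rw [zero_add, h2]
    · rw [hv_pos R A i x hi, hv_neg R A j x hj, hv_neg R A k x hk,
        (hf x).1 (mul_pos_of_neg_of_neg (mul_neg_of_pos_of_neg hi hj) hk)]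
      simp
    · rw [hv_pos R A i x hi, hv_neg R A j x hj, hv_pos R A k x hk,
        (hf x).2 (mul_neg_of_neg_of_pos (mul_neg_of_pos_of_neg hi hj) hk)]
      rw [add_zero, h2]
    · rw [hv_pos R A i x hi, hv_pos R A j x hj, hv_neg R A k x hk,
        (hf x).2 (mul_neg_of_pos_of_neg (mul_pos hi hj) hk)]
      rw [add_zero, h2]
    · rw [hv_pos R A i x hi, hv_pos R A j x hj, hv_pos R A k x hk,
        (hf x).1 (mul_pos (mul_pos hi hj) hk)]
      rw [h2, zero_add]
  rw [e]
  exact add_mem (add_mem (mem_one_of_heaviside (isHeaviside_hv R A i))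
    (mem_one_of_heaviside (isHeaviside_hv R A j))) (mem_one_of_heaviside (isHeaviside_hv R A k))

theorem filt_mono {A : Matrix (Fin n) (Fin l) ℝ} {k m : ℕ} (h : k ≤ m) :
    filt R A k ≤ filt R A m := by
  apply Submodule.span_mono
  rintro f ⟨L, h1, h2, h3⟩
  exact ⟨L, h1.trans h, h2, h3⟩

theorem one_mem_filt {A : Matrix (Fin n) (Fin l) ℝ} (k : ℕ) : (1 : Chamber A → R) ∈ filt R A k :=
  Submodule.subset_span ⟨[], Nat.zero_le _, by simp, by simp⟩

theorem mul_mem_filt {A : Matrix (Fin n) (Fin l) ℝ} {k m : ℕ} {f g : Chamber A → R}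
    (hf : f ∈ filt R A k) (hg : g ∈ filt R A m) : f * g ∈ filt R A (k + m) := by
  induction hf using Submodule.span_induction with
  | mem f hf =>
    obtain ⟨L, h1, h2, h3⟩ := hf
    induction hg using Submodule.span_induction with
    | mem g hg =>
      obtain ⟨L', h1', h2', h3'⟩ := hg
      apply Submodule.subset_span
      refine ⟨L ++ L', ?_, ?_, ?_⟩
      · rw [List.length_append]
        omega
      · intro x hx
        rcases List.mem_append.mp hx with hx | hx
        · exact h2 x hx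
        · exact h2' x hx
      · rw [List.prod_append, h3, h3']
    | zero => rw [mul_zero]; exact zero_mem _
    | add a b _ _ ha hb => rw [mul_add]; exact add_mem ha hb
    | smul r a _ ha => rw [mul_smul_comm]; exact Submodule.smul_mem _ _ ha
  | zero => rw [zero_mul]; exact zero_mem _
  | add a b _ _ ha hb => rw [add_mul]; exact add_mem ha hb
  | smul r a _ ha => rw [smul_mul_assoc]; exact Submodule.smul_mem _ _ ha

theorem prod_mem_filt {A : Matrix (Fin n) (Fin l) ℝ} (L : List (Chamber A → R))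
    (h : ∀ g ∈ L, g ∈ filt R A 1) : L.prod ∈ filt R A L.length := by
  induction L with
  | nil => exact one_mem_filt 0
  | cons a L ih =>
    rw [List.prod_cons, List.length_cons, add_comm]
    exact mul_mem_filt (h a (by simp)) (ih fun g hg => h g (by simp [hg]))

theorem map_filt_le {l' n' : ℕ} {A : Matrix (Fin n) (Fin l) ℝ} {B : Matrix (Fin n') (Fin l') ℝ}
    (φ : (Chamber A → R) →ₐ[R] (Chamber B → R))
    (h : ∀ g i, IsHeaviside R A i g → φ g ∈ filt R B 1) (k : ℕ) :
    (filt R A k).map φ.toLinearMap ≤ filt R B k := by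
  rw [Submodule.map_le_iff_le_comap]
  apply Submodule.span_le.mpr
  rintro f ⟨L, h1, h2, rfl⟩
  show φ L.prod ∈ filt R B k
  rw [map_list_prod]
  apply filt_mono h1
  rw [← List.length_map (f := φ)]
  apply prod_mem_filt
  intro g hg
  obtain ⟨g', hg', rfl⟩ := List.mem_map.mp hg
  obtain ⟨i, hi⟩ := h2 g' hg'
  exact h g' i hi

end Lemmas

section Example

/-- The forms `x₁, x₂, x₂ - x₁, x₄, x₃, x₃ - x₄`: the sum of two pencils of three lines. -/
def A1 : Matrix (Fin 6) (Fin 4) ℝ :=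
  !![1, 0, 0, 0; 0, 1, 0, 0; -1, 1, 0, 0; 0, 0, 0, 1; 0, 0, 1, 0; 0, 0, 1, -1]

/-- The forms `x₁, x₂, x₂ - x₁, x₄, x₃, x₃ - x₁`: the sum of the cone over a square grid and of
a point. -/
def A2 : Matrix (Fin 6) (Fin 4) ℝ :=
  !![1, 0, 0, 0; 0, 1, 0, 0; -1, 1, 0, 0; 0, 0, 0, 1; 0, 0, 1, 0; -1, 0, 1, 0]

theorem A1_mulVec (x : Fin 4 → ℝ) :
    A1 *ᵥ x = ![x 0, x 1, x 1 - x 0, x 3, x 2, x 2 - x 3] := by
  ext i
  fin_cases i <;> simp [A1, Matrix.mulVec, dotProduct, Fin.sum_univ_four] <;> ring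

theorem A2_mulVec (x : Fin 4 → ℝ) :
    A2 *ᵥ x = ![x 0, x 1, x 1 - x 0, x 3, x 2, x 2 - x 0] := by
  ext i
  fin_cases i <;> simp [A2, Matrix.mulVec, dotProduct, Fin.sum_univ_four] <;> ring

theorem isArrangement_A1 : IsArrangement A1 := by
  constructor
  · intro i h
    have h0 := congrFun h 0
    have h1 := congrFun h 1
    have h2 := congrFun h 2
    have h3 := congrFun h 3
    fin_cases i <;> simp [A1] at h0 h1 h2 h3
  · intro i j hij c h
    have h0 := congrFun h 0
    have h1 := congrFun h 1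
    have h2 := congrFun h 2
    have h3 := congrFun h 3
    fin_cases i <;> fin_cases j <;> simp [A1] at hij h0 h1 h2 h3 <;> linarith

theorem isArrangement_A2 : IsArrangement A2 := by
  constructor
  · intro i h
    have h0 := congrFun h 0
    have h1 := congrFun h 1
    have h2 := congrFun h 2
    have h3 := congrFun h 3
    fin_cases i <;> simp [A2] at h0 h1 h2 h3
  · intro i j hij c h
    have h0 := congrFun h 0
    have h1 := congrFun h 1
    have h2 := congrFun h 2
    have h3 := congrFun h 3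
    fin_cases i <;> fin_cases j <;> simp [A2] at hij h0 h1 h2 h3 <;> linarith

theorem not_omIso : ¬ OMIso A1 A2 := by
  rintro ⟨σ, ε, hε, h⟩
  have h1 : (fun i => SignType.sign ((A2 *ᵥ (![0, 0, 0, 1] : Fin 4 → ℝ)) i)) ∈ covectors A2 :=
    ⟨_, rfl⟩
  rw [h] at h1
  obtain ⟨x, hx⟩ := h1
  have h2 : ∀ i, (A1 *ᵥ x) i = 0 ↔ σ i ≠ 3 := by
    intro i
    have h3 := congrFun hx i
    rw [← sign_eq_zero_iff, ← h3, mul_eq_zero, or_iff_right (hε i), sign_eq_zero_iff, A2_mulVec]
    generalize σ i = j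
    fin_cases j <;> simp
  rw [A1_mulVec] at h2
  obtain ⟨i, hi⟩ := σ.surjective 3
  have h4 : ∀ j, j ≠ i → (![x 0, x 1, x 1 - x 0, x 3, x 2, x 2 - x 3] : Fin 6 → ℝ) j = 0 := by
    intro j hj
    rw [h2]
    intro h5
    exact hj (σ.injective (h5.trans hi.symm))
  have h5 : (![x 0, x 1, x 1 - x 0, x 3, x 2, x 2 - x 3] : Fin 6 → ℝ) i ≠ 0 := by
    rw [Ne, h2, hi]
    simp
  have k0 := h4 0
  have k1 := h4 1
  have k2 := h4 2
  have k3 := h4 3
  have k4 := h4 4
  have k5 := h4 5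
  fin_cases i <;> simp at k0 k1 k2 k3 k4 k5 h5 <;> apply h5 <;> linarith

theorem mem_A1 (x : Fin 4 → ℝ) : x ∈ compl A1 ↔
    x 0 ≠ 0 ∧ x 1 ≠ 0 ∧ x 1 - x 0 ≠ 0 ∧ x 3 ≠ 0 ∧ x 2 ≠ 0 ∧ x 2 - x 3 ≠ 0 := by
  show (∀ i, (A1 *ᵥ x) i ≠ 0) ↔ _
  rw [A1_mulVec]
  constructor
  · intro h
    exact ⟨h 0, h 1, h 2, h 3, h 4, h 5⟩
  · rintro ⟨h0, h1, h2, h3, h4, h5⟩ i
    fin_cases i <;> assumption

theorem mem_A2 (x : Fin 4 → ℝ) : x ∈ compl A2 ↔
    x 0 ≠ 0 ∧ x 1 ≠ 0 ∧ x 1 - x 0 ≠ 0 ∧ x 3 ≠ 0 ∧ x 2 ≠ 0 ∧ x 2 - x 0 ≠ 0 := by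
  show (∀ i, (A2 *ᵥ x) i ≠ 0) ↔ _
  rw [A2_mulVec]
  constructor
  · intro h
    exact ⟨h 0, h 1, h 2, h 3, h 4, h 5⟩
  · rintro ⟨h0, h1, h2, h3, h4, h5⟩ i
    fin_cases i <;> assumption

/-- `(x₁, x₂, x₃, x₄) ↦ (x₁, x₂, x₁ x₃ / x₄, x₄)` -/
noncomputable def F (x : compl A1) : compl A2 :=
  ⟨![x.1 0, x.1 1, x.1 0 * x.1 2 / x.1 3, x.1 3], by
    obtain ⟨h0, h1, h2, h3, h4, h5⟩ := (mem_A1 x.1).mp x.2
    rw [mem_A2]
    refine ⟨h0, h1, h2, h3, ?_, ?_⟩
    · show x.1 0 * x.1 2 / x.1 3 ≠ 0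
      positivity
    · show x.1 0 * x.1 2 / x.1 3 - x.1 0 ≠ 0
      have e : x.1 0 * x.1 2 / x.1 3 - x.1 0 = x.1 0 * (x.1 2 - x.1 3) / x.1 3 := by
        field_simp
      rw [e]
      positivity⟩

/-- `(x₁, x₂, x₃, x₄) ↦ (x₁, x₂, x₄ x₃ / x₁, x₄)` -/
noncomputable def G (x : compl A2) : compl A1 :=
  ⟨![x.1 0, x.1 1, x.1 3 * x.1 2 / x.1 0, x.1 3], by
    obtain ⟨h0, h1, h2, h3, h4, h5⟩ := (mem_A2 x.1).mp x.2
    rw [mem_A1]
    refine ⟨h0, h1, h2, h3, ?_, ?_⟩
    · show x.1 3 * x.1 2 / x.1 0 ≠ 0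
      positivity
    · show x.1 3 * x.1 2 / x.1 0 - x.1 3 ≠ 0
      have e : x.1 3 * x.1 2 / x.1 0 - x.1 3 = x.1 3 * (x.1 2 - x.1 0) / x.1 0 := by
        field_simp
      rw [e]
      positivity⟩

theorem cc {l n : ℕ} (A : Matrix (Fin n) (Fin l) ℝ) (j : Fin l) :
    Continuous fun x : compl A => x.1 j := (continuous_apply j).comp continuous_subtype_val

theorem continuous_F : Continuous F := by
  refine Continuous.subtype_mk ?_ _
  rw [continuous_pi_iff]
  have h3 : ∀ x : compl A1, x.1 3 ≠ 0 := fun x => ((mem_A1 x.1).mp x.2).2.2.2.1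
  intro i
  fin_cases i
  · exact cc A1 0
  · exact cc A1 1
  · show Continuous fun x : compl A1 => x.1 0 * x.1 2 / x.1 3
    exact Continuous.div ((cc A1 0).mul (cc A1 2)) (cc A1 3) h3
  · exact cc A1 3

theorem continuous_G : Continuous G := by
  refine Continuous.subtype_mk ?_ _
  rw [continuous_pi_iff]
  have h3 : ∀ x : compl A2, x.1 0 ≠ 0 := fun x => ((mem_A2 x.1).mp x.2).1
  intro i
  fin_cases i
  · exact cc A2 0
  · exact cc A2 1
  · show Continuous fun x : compl A2 => x.1 3 * x.1 2 / x.1 0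
    exact Continuous.div ((cc A2 3).mul (cc A2 2)) (cc A2 0) h3
  · exact cc A2 3

theorem GF (x : compl A1) : G (F x) = x := by
  obtain ⟨h0, h1, h2, h3, h4, h5⟩ := (mem_A1 x.1).mp x.2
  apply Subtype.ext
  funext i
  fin_cases i
  · rfl
  · rfl
  · show x.1 3 * (x.1 0 * x.1 2 / x.1 3) / x.1 0 = x.1 2
    field_simp
  · rfl

theorem FG (x : compl A2) : F (G x) = x := by
  obtain ⟨h0, h1, h2, h3, h4, h5⟩ := (mem_A2 x.1).mp x.2
  apply Subtype.ext
  funext i
  fin_cases i
  · rfl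
  · rfl
  · show x.1 0 * (x.1 3 * x.1 2 / x.1 0) / x.1 3 = x.1 2
    field_simp
  · rfl

/-- The bijection between the sets of chambers. -/
noncomputable def e : Chamber A1 ≃ Chamber A2 where
  toFun := continuous_F.connectedComponentsMap
  invFun := continuous_G.connectedComponentsMap
  left_inv c := by
    obtain ⟨x, rfl⟩ := ConnectedComponents.surjective_coe c
    exact congrArg _ (GF x)
  right_inv c := by
    obtain ⟨x, rfl⟩ := ConnectedComponents.surjective_coe c
    exact congrArg _ (FG x)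

theorem e_coe (x : compl A1) : e (x : Chamber A1) = (F x : Chamber A2) := rfl

theorem e_symm_coe (x : compl A2) : e.symm (x : Chamber A2) = (G x : Chamber A1) := rfl

variable {R : Type u} [CommRing R] [CharP R 2]

theorem sign_div {a b c v : ℝ} (hc : c ≠ 0) (hv : v = a * b / c) :
    (0 < a * b * c → 0 < v) ∧ (a * b * c < 0 → v < 0) := by
  have h2 : 0 < c ^ 2 := by positivity
  have e1 : v = a * b * c / c ^ 2 := by
    rw [hv]
    field_simp
  rw [e1]
  exact ⟨fun h => div_pos h h2, fun h => div_neg_of_neg_of_pos h h2⟩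

theorem pull_F (g : Chamber A2 → R) (i : Fin 6) (hg : IsHeaviside R A2 i g) :
    (fun c => g (e c)) ∈ filt R A1 1 := by
  have key : ∀ x : compl A1, A2 *ᵥ (F x).1 =
      ![x.1 0, x.1 1, x.1 1 - x.1 0, x.1 3, x.1 0 * x.1 2 / x.1 3,
        x.1 0 * x.1 2 / x.1 3 - x.1 0] := fun x => A2_mulVec _
  have h3 : ∀ x : compl A1, x.1 3 ≠ 0 := fun x => ((mem_A1 x.1).mp x.2).2.2.2.1
  have hs : ∀ j, (∀ x : compl A1, (A2 *ᵥ (F x).1) j = (A1 *ᵥ x.1) j) →
      IsHeaviside R A2 j g → (fun c => g (e c)) ∈ filt R A1 1 := by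
    intro j hj hg
    apply mem_one_of_heaviside (i := j)
    intro x
    have h := hg (F x)
    rw [hj x] at h
    exact h
  fin_cases i
  · exact hs 0 (fun x => by rw [key, A1_mulVec]; rfl) hg
  · exact hs 1 (fun x => by rw [key, A1_mulVec]; rfl) hg
  · exact hs 2 (fun x => by rw [key, A1_mulVec]; rfl) hg
  · exact hs 3 (fun x => by rw [key, A1_mulVec]; rfl) hg
  · apply mem_one_of_triple 0 4 3
    intro x
    have h := hg (F x)
    rw [key x] at h
    have h' := sign_div (a := (A1 *ᵥ x.1) 0) (b := (A1 *ᵥ x.1) 4) (c := (A1 *ᵥ x.1) 3)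
      (v := x.1 0 * x.1 2 / x.1 3) (by rw [A1_mulVec]; exact h3 x) (by rw [A1_mulVec]; rfl)
    exact ⟨fun h1 => h.1 (h'.1 h1), fun h1 => h.2 (h'.2 h1)⟩
  · apply mem_one_of_triple 0 5 3
    intro x
    have h := hg (F x)
    rw [key x] at h
    have h' := sign_div (a := (A1 *ᵥ x.1) 0) (b := (A1 *ᵥ x.1) 5) (c := (A1 *ᵥ x.1) 3)
      (v := x.1 0 * x.1 2 / x.1 3 - x.1 0) (by rw [A1_mulVec]; exact h3 x) (by
        rw [A1_mulVec]
        show _ = x.1 0 * (x.1 2 - x.1 3) / x.1 3
        have := h3 x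
        field_simp)
    exact ⟨fun h1 => h.1 (h'.1 h1), fun h1 => h.2 (h'.2 h1)⟩

theorem pull_G (g : Chamber A1 → R) (i : Fin 6) (hg : IsHeaviside R A1 i g) :
    (fun c => g (e.symm c)) ∈ filt R A2 1 := by
  have key : ∀ x : compl A2, A1 *ᵥ (G x).1 =
      ![x.1 0, x.1 1, x.1 1 - x.1 0, x.1 3, x.1 3 * x.1 2 / x.1 0,
        x.1 3 * x.1 2 / x.1 0 - x.1 3] := fun x => A1_mulVec _
  have h3 : ∀ x : compl A2, x.1 0 ≠ 0 := fun x => ((mem_A2 x.1).mp x.2).1
  have hs : ∀ j, (∀ x : compl A2, (A1 *ᵥ (G x).1) j = (A2 *ᵥ x.1) j) →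
      IsHeaviside R A1 j g → (fun c => g (e.symm c)) ∈ filt R A2 1 := by
    intro j hj hg
    apply mem_one_of_heaviside (i := j)
    intro x
    have h := hg (G x)
    rw [hj x] at h
    exact h
  fin_cases i
  · exact hs 0 (fun x => by rw [key, A2_mulVec]; rfl) hg
  · exact hs 1 (fun x => by rw [key, A2_mulVec]; rfl) hg
  · exact hs 2 (fun x => by rw [key, A2_mulVec]; rfl) hg
  · exact hs 3 (fun x => by rw [key, A2_mulVec]; rfl) hg
  · apply mem_one_of_triple 3 4 0
    intro x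
    have h := hg (G x)
    rw [key x] at h
    have h' := sign_div (a := (A2 *ᵥ x.1) 3) (b := (A2 *ᵥ x.1) 4) (c := (A2 *ᵥ x.1) 0)
      (v := x.1 3 * x.1 2 / x.1 0) (by rw [A2_mulVec]; exact h3 x) (by rw [A2_mulVec]; rfl)
    exact ⟨fun h1 => h.1 (h'.1 h1), fun h1 => h.2 (h'.2 h1)⟩
  · apply mem_one_of_triple 3 5 0
    intro x
    have h := hg (G x)
    rw [key x] at h
    have h' := sign_div (a := (A2 *ᵥ x.1) 3) (b := (A2 *ᵥ x.1) 5) (c := (A2 *ᵥ x.1) 0)
      (v := x.1 3 * x.1 2 / x.1 0 - x.1 3) (by rw [A2_mulVec]; exact h3 x) (by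
        rw [A2_mulVec]
        show _ = x.1 3 * (x.1 2 - x.1 0) / x.1 0
        have := h3 x
        field_simp)
    exact ⟨fun h1 => h.1 (h'.1 h1), fun h1 => h.2 (h'.2 h1)⟩

/-- Composition with a bijection of the chambers. -/
def comp {X Y : Type} (e : X ≃ Y) : (X → R) ≃ₐ[R] (Y → R) :=
  { toFun := fun f y => f (e.symm y)
    invFun := fun f x => f (e x)
    left_inv := fun f => by funext x; simp
    right_inv := fun f => by funext x; simp
    map_mul' := fun f g => rfl
    map_add' := fun f g => rfl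
    commutes' := fun r => rfl }

theorem filteredIso : FilteredIso R A1 A2 := by
  refine ⟨comp e, fun k => le_antisymm (map_filt_le (comp e).toAlgHom pull_G k) ?_⟩
  intro f hf
  have h := map_filt_le (A := A2) (B := A1) (comp (R := R) e).symm.toAlgHom pull_F k
    ⟨f, hf, rfl⟩
  exact ⟨_, h, (comp (R := R) e).apply_symm_apply f⟩

end Example

/-- **Theorem.** Over every integral domain `R` of characteristic two there are two real central
arrangements whose Varchenko-Gelfand algebras over `R` are isomorphic as filtered `R`-algebras and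
whose oriented matroids are not isomorphic. -/
theorem result (R : Type u) [CommRing R] [IsDomain R] [CharP R 2] :
    ∃ A B : Matrix (Fin 6) (Fin 4) ℝ, IsArrangement A ∧ IsArrangement B ∧
      FilteredIso R A B ∧ ¬ OMIso A B :=
  ⟨A1, A2, isArrangement_A1, isArrangement_A2, filteredIso, not_omIso⟩

end Pool.Agent.Results.MP_157dc7_co.CharacteristicTwo
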